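import Pool.Agent.U435.AL.Main

/-!
# Beilinson's arithmetic Lefschetz conjecture and the filtration of Bloch and Beilinson

`𝒱` is a class of smooth projective geometrically irreducible varieties over the field `k` (for the
problem a number field) closed under products, for example all of them, `C` the Chow groups with
rational coefficients (in the form of their formal properties, `IsChowProj`), `H` a Weil cohomology
theory (`IsWeilProj`), with the classical fact that correspondences acting as zero on `H^1` act as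
zero on `Pic^0 ⊗ ℚ` (`PicardFaithful`). `CH^i(X)^0` denotes the homologically trivial classes.

Let `X` of dimension `n` have a Chow-Kunneth decomposition `π`, `h(X) = ⊕ h^t(X)`, which satisfies
motivic hard Lefschetz for the divisor class `D` (for abelian varieties and symmetric ample `D` this
is a theorem of Deninger-Murre, Kunnemann and Scholl; it passes to complete intersections in them
and to other varieties), and let `F` be the filtration of the Chow groups of `X` attached to `π`,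
`F^ν CH^j(X) = CH^j(h^0) + ⋯ + CH^j(h^(2j-ν))`. We prove:

1. The injectivity half of Q1 is Murre's conjecture (D): for `m ≤ (n + 1) / 2` the maps
   `D^(n+1-2i) : CH^i(X)^0 → CH^(n+1-i)(X)^0`, `i ≤ m`, are all injective if and only if
   `F^1 CH^j(X) = CH^j(X)^0` for all `j ≤ m`.
2. The surjectivity half is the vanishing of the further steps: for `1 ≤ m ≤ (n + 1) / 2` these maps
   are surjective for `1 ≤ i ≤ m` if and only if `F^max(2, j+1-m) CH^j(X) = 0` for all `j`; and then
   `F^2 CH^j(X) = 0` for `j ≥ n + 1 - m`. For `m = 1`: all zero-cycles homologous to zero are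
   `D^(n-1)` times divisors homologous to zero if and only if `F^j CH^j(X) = 0` for all `j ≥ 2`.
3. Q1 holds for `X` and `D` (all `i ≤ (n + 1) / 2`) if and only if (D) holds and `F^2 CH^j(X) = 0` for
   all `j`, if and only if `CH^j(X)^0 = CH^j(h^(2j-1)(X))` for all `j ≥ 1`. These conditions do not
   involve `D`.
4. If Q2 holds for `i ≤ m`, for some height pairings, then (D) holds in codimensions `≤ m`.
5. If `n ≤ 3` the maps in Q1 are injective, and Q1 holds if and only if the one for `i = 1` is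
   surjective.
-/

open CategoryTheory AlgebraicGeometry

set_option autoImplicit false

universe u v w

namespace Pool.Agent.Results.MP_e2c9e7_nt.ArithmeticLefschetz

open Pool.Agent.H914 Pool.Agent.W492.BB Pool.Agent.TH133 Pool.Agent.Y107 Pool.Agent.Q73.LS

variable {k : Type u} [Field k] {𝒱 : VarClass k} {C : TheoryData.{u, v, 0} 𝒱 ℚ} {K : Type w}
  [Field K] (H : WeilTheoryData.{u, v, w} C K) {X : 𝒱.Obj} (D : C.A X)

/-- `x ∈ CH^i(X)^0`: the class `x` of codimension `i` is homologically trivial. -/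
def HomTrivial (i : ℤ) (x : C.A X) : Prop := C.Deg i x ∧ H.cl x = 0

/-- `D^(n+1-2i) : CH^i(X)^0 → CH^(n+1-i)(X)^0`, `n = dim X`, is injective. -/
def LefschetzInjective (i : ℕ) : Prop :=
  ∀ x : C.A X, HomTrivial H i x → D ^ (X.dim + 1 - 2 * i) * x = 0 → x = 0

/-- `D^(n+1-2i) : CH^i(X)^0 → CH^(n+1-i)(X)^0`, `n = dim X`, is surjective. -/
def LefschetzSurjective (i : ℕ) : Prop :=
  ∀ y : C.A X, HomTrivial H ((X.dim : ℤ) + 1 - i) y →
    ∃ x : C.A X, HomTrivial H i x ∧ D ^ (X.dim + 1 - 2 * i) * x = y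

/-- Q1 for `X` and `D`, all `i ≤ (n + 1) / 2`. -/
def ArithmeticLefschetz : Prop :=
  ∀ i : ℕ, 2 * i ≤ X.dim + 1 → LefschetzInjective H D i ∧ LefschetzSurjective H D i

/-- Q2 for `X`, `D` and `i`, for the pairing `p` of `CH^i(X)^0` and `CH^(n+1-i)(X)^0`. -/
def HodgeIndex (p : C.A X → C.A X → ℝ) (i : ℕ) : Prop :=
  ∀ x : C.A X, HomTrivial H i x → x ≠ 0 → D ^ (X.dim + 2 - 2 * i) * x = 0 →
    0 < (-1) ^ i * p x (D ^ (X.dim + 1 - 2 * i) * x)

/-- `F^1 CH^j(X) = CH^j(X)^0`: Murre's (D) in codimension `j`. -/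
def MurreDIn (π : ℕ → C.A (X.prod X)) (j : ℕ) : Prop :=
  ∀ x : C.A X, x ∈ ckFil C π j 1 ↔ HomTrivial H j x

/-- Beilinson's arithmetic Lefschetz conjecture for a variety with a Chow-Kunneth decomposition
satisfying motivic hard Lefschetz: its injectivity half is Murre's (D), its surjectivity half is the
vanishing of `F^2`. -/
theorem result [IsChowProj C] [IsWeilProj H] (hP : PicardFaithful H) (hD : C.Deg 1 D)
    (π : ℕ → C.A (X.prod X)) (hπ : IsCK H X π) (hM : MotivicLefschetz C (C.mulCorr D) π) :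
    (∀ m : ℕ, 2 * m ≤ X.dim + 1 →
      ((∀ i ≤ m, LefschetzInjective H D i) ↔ ∀ j ≤ m, MurreDIn H π j)) ∧
    (∀ m : ℕ, 1 ≤ m → 2 * m ≤ X.dim + 1 →
      ((∀ i, 1 ≤ i → i ≤ m → LefschetzSurjective H D i) ↔
        ∀ j : ℕ, ckFil C π j (max 2 (j + 1 - m)) = ⊥) ∧
      ((∀ i, 1 ≤ i → i ≤ m → LefschetzSurjective H D i) →
        ∀ j : ℕ, X.dim + 1 ≤ j + m → ckFil C π j 2 = ⊥)) ∧
    ((ArithmeticLefschetz H D ↔ (∀ j, MurreDIn H π j) ∧ ∀ j : ℕ, ckFil C π j 2 = ⊥) ∧
      (ArithmeticLefschetz H D ↔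
        ∀ j : ℕ, 1 ≤ j → ∀ x : C.A X, HomTrivial H j x → C.act (π (2 * j - 1)) x = x)) ∧
    (∀ (p : ℕ → C.A X → C.A X → ℝ),
      (∀ (i : ℕ) (x y y' : C.A X), HomTrivial H i x → HomTrivial H ((X.dim : ℤ) + 1 - i) y →
        HomTrivial H ((X.dim : ℤ) + 1 - i) y' → p i x (y + y') = p i x y + p i x y') →
      ∀ m : ℕ, 2 * m ≤ X.dim + 1 → (∀ i ≤ m, HodgeIndex H D (p i) i) →
        ∀ j ≤ m, MurreDIn H π j) ∧
    (X.dim ≤ 3 → (∀ i : ℕ, 2 * i ≤ X.dim + 1 → LefschetzInjective H D i) ∧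
      (ArithmeticLefschetz H D ↔ LefschetzSurjective H D 1)) := by
  have einj : ∀ i, LefschetzInjective H D i ↔ U435.AL.LInj H D i := fun i =>
    ⟨fun h x hx h0 => h x ⟨hx, h0⟩, fun h x hx => h x hx.1 hx.2⟩
  have esurj : ∀ i, LefschetzSurjective H D i ↔ U435.AL.LSurj H D i := fun i => by
    constructor
    · intro h y hy h0
      obtain ⟨x, hx, e⟩ := h y ⟨hy, h0⟩
      exact ⟨x, hx.1, hx.2, e⟩
    · intro h y hy
      obtain ⟨x, h1, h2, e⟩ := h y hy.1 hy.2
      exact ⟨x, ⟨h1, h2⟩, e⟩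
  have e1 : ∀ m : ℕ, 2 * m ≤ X.dim + 1 →
      ((∀ i ≤ m, LefschetzInjective H D i) ↔ ∀ j ≤ m, MurreDIn H π j) := by
    intro m hm
    simp only [einj]
    exact U435.AL.inj_iff hD hπ hM hm
  have eall : ArithmeticLefschetz H D ↔
      ∀ i, 2 * i ≤ X.dim + 1 → U435.AL.LInj H D i ∧ U435.AL.LSurj H D i := by
    simp only [ArithmeticLefschetz, einj, esurj]
  refine ⟨e1, fun m hm1 hm => ⟨?_, ?_⟩, ⟨?_, ?_⟩, ?_, fun h3 => ?_⟩
  · simp only [esurj]
    exact U435.AL.surj_iff hP hD hπ hM hm1 hm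
  · simp only [esurj]
    exact fun h j hj => U435.AL.surj_top hP hD hπ hM hm1 h hj
  · rw [eall]
    exact U435.AL.all_iff hP hD hπ hM
  · rw [eall, U435.AL.all_iff' hP hD hπ hM]
    exact ⟨fun h j hj x hx => h j hj x hx.1 hx.2, fun h j hj x hx h0 => h j hj x ⟨hx, h0⟩⟩
  · intro p hp m hm hQ
    refine (e1 m hm).1 fun i hi x hx hz => ?_
    by_contra hx0
    have h0 : HomTrivial H ((X.dim : ℤ) + 1 - i) (0 : C.A X) :=
      ⟨Submodule.zero_mem _, map_zero _⟩
    have hp0 : p i x 0 = 0 := by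
      have h := hp i x 0 0 hx h0 h0
      rw [add_zero] at h
      linarith
    have h1 : D ^ (X.dim + 2 - 2 * i) * x = 0 := by
      have e : X.dim + 2 - 2 * i = 1 + (X.dim + 1 - 2 * i) := by omega
      rw [e, pow_add, mul_assoc, hz, mul_zero]
    have h2 := hQ i hi x hx hx0 h1
    rw [hz, hp0, mul_zero] at h2
    exact lt_irrefl _ h2
  · rw [eall, esurj]
    simp only [einj]
    exact U435.AL.three hP hD hπ hM h3

end Pool.Agent.Results.MP_e2c9e7_nt.ArithmeticLefschetz
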