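import Pool.Agent.U191.FK.Lef

/-!
# Arithmetic hard Lefschetz for quotients of products of curves

`𝒱` is a class of smooth projective geometrically irreducible varieties over the field `k ⊆ ℂ` closed
under products (for the problem: all of them, over an algebraic closure `k` of the number field), `C`
the Chow groups with rational coefficients, `H` a Weil cohomology theory with complex coefficients and
`D` the Hodge decompositions (singular cohomology). The statement for a variety over a number field
follows from the statement for the variety over the algebraic closure, since the Chow groups with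
rational coefficients over the number field are the invariants of the Galois group.

Let `X = C_1 × ⋯ × C_n × B`, where `B` has dimension zero and the `C_i` are curves with actions of
finite groups `G_i`, all irreducible characters of which have values in a number field `K` which is
totally real (for example symmetric and dihedral groups, and all other groups whose elements are
conjugate to their inverses), or imaginary quadratic, or a CM field of degree four. A pair `(V, e)` of
level at most one is one of the following: `(X, e)` with `e = ∑ a(γ) [γ]`, where `a` is an element of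
the rational group algebra of `G_1 × ⋯ × G_n` which is zero on `H^{p,q}(X)` for `|p - q| > 1`; or
`(Y, Δ)`, where `Y` is a quotient of `X`, or a direct summand cut out by an element of the group
algebra, of Hodge level at most one.

**Theorem.** (1) Let `Z` be a variety of dimension `n` whose motive is built from motives of level at
most one, and `d` an ample divisor class (`IsLefschetzClass`). For all `i ≤ (n + 1) / 2` the
multiplication by `d ^ (n + 1 - 2 i)` is an isomorphism from `CH^i(Z)^0` to `CH^(n + 1 - i)(Z)^0`
(homologically trivial classes, rational coefficients).

(2) Let `Y` be a quotient of `X`, or a direct summand of the same dimension `n` which is cut out by an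
element of the group algebra, such that `H^{p,q}(Y) = 0` if `|p - q| > 1` and `min (p, q) < c`. Then
the multiplication by `d ^ (n + 1 - 2 i)` maps `CH^i(Y)^0` onto `CH^(n + 1 - i)(Y)^0` for all `i ≤ c`,
`i ≤ (n + 1) / 2`.
-/

set_option autoImplicit false

open CategoryTheory AlgebraicGeometry

universe u v

namespace Pool.Agent.Results.MP_e2c9e7_nt.CurveQuotients

open Pool.Agent.H914 Pool.Agent.H914.VarClass Pool.Agent.H914.VarClass.Obj Pool.Agent.W492.BB
  Pool.Agent.TH133 Pool.Agent.U191.EY Pool.Agent.U191.FL

/-- **Hard Lefschetz for homologically trivial cycles** on varieties built from products of curves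
with actions of finite groups. -/
theorem result {k : Type u} [Field k] {𝒱 : VarClass k} {C : TheoryData.{u, v, 0} 𝒱 ℚ}
    [IsChowProj C] {H : WeilTheoryData.{u, v, 0} C ℂ} [IsWeilProj H]
    {D : ∀ V : 𝒱.Obj, HodgeRing (H.A V)} (hD : IsHodgeTheory H D) (hN : KimuraTheorem H)
    (hA : AbelTheorem H) (hS : LefschetzStandard H) :
    (∀ Z : 𝒱.Obj, IsBuiltOfLevel H D 1 (gph C (𝟙 Z)) → ∀ d : C.A Z, IsLefschetzClass H d →
        ∀ i : ℕ, 2 * i ≤ Z.dim + 1 → LefschetzInjective H d i ∧ LefschetzSurjective H d i) ∧
      ∀ (B : 𝒱.Obj) (L : List (GCurve 𝒱)) (Y : 𝒱.Obj) (c : ℕ), B.dim = 0 → AreGood H D L →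
        IsCut C B L Y → Y.dim = (prodL B L).dim → HasLevel (D Y) 1 c →
          ∀ d : C.A Y, IsLefschetzClass H d → ∀ i : ℕ, 2 * i ≤ Y.dim + 1 → i ≤ c →
            LefschetzSurjective H d i :=
  ⟨fun _ hZ _ hd _ hi => lefschetz_of_level hD hN hA hS hZ hd hi,
    fun _ _ _ _ hB hL hY hdim hl _ hd _ hi hic =>
      lefschetz_of_mixed hD hN hA hS hB hL hY hdim hl hd hi hic⟩

end Pool.Agent.Results.MP_e2c9e7_nt.CurveQuotients
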