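import Pool.Agent.U226.HT.Law

/-!
# The radicals of the height pairings on the varieties `Z × X ^ n`

Let `X` be a smooth projective variety over a number field which satisfies the sign conjecture `C⁺` (products
of curves, surfaces, abelian varieties, complete intersections and many others), with a rational point,
`b` its total Betti number, and `Z` an ARBITRARY smooth projective variety, such that the Beilinson–Bloch
height pairings on homologically trivial cycles are defined for the varieties `Z × X ^ n` (as the question
presupposes). Let `r(n)` be the dimension of the radical of the height pairing on `Ch (Z × X ^ n)^0` (all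
codimensions), `g(n)` the rank of the pairing (the dimension of `Ch (Z × X ^ n)^0` modulo the radical), numbers
or infinity, and `ρ(n)` the rank of the cycles on `X ^ n` modulo numerical equivalence. Q1 and Q2 imply that
the pairings are nondegenerate, that is, `r(n) = 0` for all `n`.

Theorem.
(1) `r(n) / ρ(n)` and `g(n) / ρ(n)` converge for `n → ∞`; the limits `N` and `M` are natural numbers or
infinity. `N = 0` if and only if the height pairings of all `Z × X ^ n` are nondegenerate, and `M = 0` if and
only if they are all zero.
(2) If the pairing of `Z × X ^ m` is degenerate then for ALL `n ≥ 128 (m + 1) ^ 2 b ^ (2 m + 6)` we have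
`r(n) ≥ ρ(n) / 2` and `r(2 n) ≥ b ^ (2 n) / (2 (n + 1) ^ (b ^ 2))`. So one inequality `2 r(n) < ρ(n)` implies that
the height pairing of `Z × X ^ m` is nondegenerate; the bound does not depend on `Z`, and for `m = 0` this is a
criterion for an arbitrary variety `Z` in terms of the products `Z × X ^ n` for one fixed `X`.
(3) If the pairing of `Z × X ^ m` is not zero then the same bounds hold for the ranks `g(n)`.

So a failure of the nondegeneracy (hence of Q1 or Q2) is never isolated and never small: it forces
exponentially many independent classes in the radicals of the products with the powers of every `X`.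

The setting. `C` is the category of Chow motives over the number field with the correspondences of all
degrees as morphisms, a rigid symmetric monoidal `ℚ`-linear category, `T = h(X)`, `tp T n = h(X ^ n)`,
`B = h(Z)`, `Hom (1, Y)` and `Hom (Y, 1)` are both the group of cycles on the variety; `R` is the cohomology.
`HeightPairing R` is a pairing of homologically trivial `x : 1 ⟶ Y` and `y : Y ⟶ 1`, linear in `x`, with the
projection formula `(x ≫ f, z) = (x, f ≫ z)` for correspondences `f` (Beilinson, Bloch; Gillet–Soulé).

Idea of the proof. The radicals form a subfunctor of the additive functor `Y ↦ Hom (1, B ⊗ Y)` by the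
projection formula, so that the law of the values of additive functors (starting library `N64.AF`) applies
to the radicals and to the homologically trivial classes modulo the radicals. The same method was used
for kernels of Abel–Jacobi maps in `MP_537ea0_ag.KernelLaw`.
-/

set_option autoImplicit false

open CategoryTheory MonoidalCategory Module Filter Topology
open Pool.Agent.Y112.SR Pool.Agent.Y112.KD Pool.Agent.N64.AF Pool.Agent.U226.HT

namespace Pool.Agent.Results.MP_e2c9e7_nt.HeightRadicalLaw

universe v u w

/-- The law for the radicals and the ranks of a height pairing on the products of an arbitrary `B` with the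
powers of `T`. -/
theorem result {C : Type u} [Category.{v} C] [Preadditive C] [MonoidalCategory C]
    [MonoidalPreadditive C] [SymmetricCategory C] [RightRigidCategory C]
    [Linear ℚ C] [MonoidalLinear ℚ C]
    {K : Type w} [Field K] [IsAlgClosed K] [Algebra ℚ K] (R : SuperRealisation C K)
    (T : C) [ExactPairing T T] (h : IsPow ℚ R T) (P : HeightPairing R) (B : C) :
    ∃ N M : ℕ∞, RatioTo ℚ T (radDim h.real P B T) N ∧ RatioTo ℚ T (htRank h.real P B T) M ∧
      (N = 0 ↔ ∀ n : ℕ, Nondeg P (B ⊗ tp T n)) ∧ (M = 0 ↔ ∀ n : ℕ, PairZero P (B ⊗ tp T n)) ∧
      (∀ m : ℕ, ¬ Nondeg P (B ⊗ tp T m) → Large R T (radDim h.real P B T) m) ∧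
      (∀ m : ℕ, ¬ PairZero P (B ⊗ tp T m) → Large R T (htRank h.real P B T) m) :=
  height_law h P B

end Pool.Agent.Results.MP_e2c9e7_nt.HeightRadicalLaw
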