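import Pool.Agent.U935.HT.Fin
import Pool.Agent.TH133.Defs

/-!
# Beilinson's Lefschetz and Hodge index conjectures for height pairings: the middle dimension

`𝒱` is a class of smooth projective varieties over the number field `k` which is closed under
products, `C` the Chow groups with rational coefficients (in the form of their formal properties,
`IsChowProj`), `H` the `ℓ`-adic cohomology (`IsWeilProj`), `HomTriv H i x` means
`x ∈ Ch^i(X)^0`, and `T` is the height pairing of Beilinson and Bloch (in the form of its formal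
properties `HeightPairing`: biadditive, symmetric, projection formula, multiplication by cycle
classes is self-adjoint; as in the problem it is supposed to be defined). `P m` with the class
`h m` is the projective space of dimension `m` with its hyperplane class (`IsProjSpace`: projective
bundle theorem), and `Pol X L` means that `L` is one of the polarisations of `X` under
consideration, for example all ample classes: `L ⊠ O(1)` is a polarisation of `X × P m` (`IsFamily`).

`Lefschetz H X L i e`: `L^e : Ch^i(X)^0 → Ch^(i+e)(X)^0` is an isomorphism; `Q1`: this for all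
`2 i + e = dim X + 1`. `HodgeIndex H T X L i e`: `(-1)^i (x, L^e x) > 0` for all nonzero
`x ∈ Ch^i(X)^0` with `L^(e+1) x = 0`; `Q2`: this for all `2 i + e = dim X + 1`.

Theorem.
(1) For each single `(X, L, i)`, `n = dim X`: Q1 for `(X, L, i)` is equivalent to Q1 for
`(X × P^(n-2i), L ⊠ O(1), n - i)`, where the exponent is one. Q2 for `(X, L, i)` is equivalent to Q2
for `(X × P^(n+1-2i), L ⊠ O(1), n + 1 - i)`, where the exponent is zero.
(2) Let `S` be any unbounded set of natural numbers. Q1 holds for all polarised varieties if and only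
if `L : Ch^i(X)^0 → Ch^(i+1)(X)^0` is an isomorphism for those of dimension `2 i`, `i ∈ S`. Q2 holds
for all polarised varieties if and only if `(-1)^i (x, x) > 0` for those of dimension `2 i - 1`,
`i ∈ S`, and all nonzero `x ∈ Ch^i(X)^0` with `L x = 0`.
(3) For one `(X, L)`: Q2 implies the injectivity in Q1. Q1 and Q2 together imply that the height
pairings of `X` are nondegenerate. If `Ch^i(X)^0` and `Ch^j(X)^0`, `i + j = n + 1`, are
finite-dimensional of the same dimension (part of the conjectures of Beilinson and Bloch) then Q2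
implies Q1.
(4) So if this holds for all `X` then the whole conjecture (Q1 and Q2 for all polarised varieties) is
equivalent to the positivity `(x, x) > 0` for all nonzero `x ∈ Ch^i(X)^0` with `L x = 0`, `i` even
and `dim X = 2 i - 1`.

Proof. With `N = L + h` on `X × P^m` the coefficients of `N z` are `L z_a + z_(a-1)`. So the classes
killed by `N` are the `∑ (-L)^(m-a) x h^a` with `L^(m+1) x = 0`, and the height pairing of such a
class with itself is `(m + 1) (-1)^m (x, L^m x)`.
-/

set_option autoImplicit false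

open CategoryTheory AlgebraicGeometry

universe u v w

namespace Pool.Agent.Results.MP_e2c9e7_nt.MiddleDimension

open Pool.Agent.H914 Pool.Agent.H914.VarClass.Obj Pool.Agent.W492.BB Pool.Agent.U644.BBL
  Pool.Agent.TH133 Pool.Agent.U935.HT

/-- `Ch^i(X)^0` and `Ch^j(X)^0`, `i + j = dim X + 1`, are finite-dimensional of the same dimension. -/
def EqualRanks {k : Type u} [Field k] {𝒱 : VarClass k} {C : TheoryData.{u, v, 0} 𝒱 ℚ} {K : Type w}
    [Field K] (H : WeilTheoryData.{u, v, w} C K) (X : 𝒱.Obj) : Prop :=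
  ∀ i j : ℕ, i + j = X.dim + 1 → FiniteDimensional ℚ (homSub H X i) ∧
    Module.finrank ℚ (homSub H X i) = Module.finrank ℚ (homSub H X j)

/-- **Beilinson's conjectures on height pairings and the middle dimension.** -/
theorem result {k : Type u} [Field k] {𝒱 : VarClass k} (C : TheoryData.{u, v, 0} 𝒱 ℚ)
    [hC : IsChowProj C] {K : Type w} [Field K] (H : WeilTheoryData.{u, v, w} C K) [IsWeilProj H]
    (T : HeightPairing H) {P : ℕ → 𝒱.Obj} {h : ∀ m, C.A (P m)} {Pol : ∀ X : 𝒱.Obj, C.A X → Prop}
    (hF : IsFamily P h Pol) :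
    (∀ (X : 𝒱.Obj) (L : C.A X), C.Deg 1 L → ∀ i e : ℕ,
      (2 * i + e = X.dim →
        (Lefschetz H X L i (e + 1) ↔ Lefschetz H (X.prod (P e)) (pol L (h e)) (i + e) 1)) ∧
      (2 * i + e = X.dim + 1 →
        (HodgeIndex H T X L i e ↔ HodgeIndex H T (X.prod (P e)) (pol L (h e)) (i + e) 0))) ∧
    (∀ S : Set ℕ, (∀ n, ∃ i ∈ S, n ≤ i) →
      ((∀ (X : 𝒱.Obj) (L : C.A X), Pol X L → Q1 H X L) ↔
        ∀ (X : 𝒱.Obj) (L : C.A X), Pol X L → ∀ i ∈ S, X.dim = 2 * i → Lefschetz H X L i 1) ∧
      ((∀ (X : 𝒱.Obj) (L : C.A X), Pol X L → Q2 H T X L) ↔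
        ∀ (X : 𝒱.Obj) (L : C.A X), Pol X L → ∀ i ∈ S, X.dim + 1 = 2 * i →
          ∀ x, HomTriv H i x → x ≠ 0 → L * x = 0 → 0 < (-1) ^ i * T.ht X x x)) ∧
    (∀ (X : 𝒱.Obj) (L : C.A X), C.Deg 1 L →
      (Q2 H T X L → ∀ i e : ℕ, 2 * i + e = X.dim + 1 → ∀ x, HomTriv H i x → L ^ e * x = 0 →
        x = 0) ∧
      (Q1 H X L → Q2 H T X L → Nondegenerate H T X) ∧
      (EqualRanks H X → Q2 H T X L → Q1 H X L)) ∧
    ((∀ X : 𝒱.Obj, EqualRanks H X) →
      ((∀ (X : 𝒱.Obj) (L : C.A X), Pol X L → Q1 H X L ∧ Q2 H T X L) ↔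
        ∀ (X : 𝒱.Obj) (L : C.A X), Pol X L → ∀ i : ℕ, Even i → X.dim + 1 = 2 * i →
          ∀ x, HomTriv H i x → x ≠ 0 → L * x = 0 → 0 < T.ht X x x)) := by
  have h3 : ∀ (X : 𝒱.Obj) (L : C.A X), C.Deg 1 L → EqualRanks H X → Q2 H T X L → Q1 H X L := by
    intro X L hL hR hQ i e hie
    have h4 := hR i (i + e) (by omega)
    have h5 := hR (i + e) i (by omega)
    exact lefschetz_of_hodge T hL hie h5.1 h4.1 h4.2 (hQ i e hie)
  refine ⟨fun X L hL i e => ⟨fun _ => ?_, fun hd => ?_⟩, fun S hS => ⟨all_lefschetz hF S hS,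
    all_hodge T hF S hS⟩, fun X L hL => ⟨fun hQ i e hie x hx hx0 =>
      inj_of_hodge T hie (hQ i e hie) hx hx0, fun h1 h2 => nondeg T hL (hC.gr_top X) h1 h2,
      h3 X L hL⟩, fun hR => ⟨fun hQ X L hL i hi hd x hx hx0 hxk => ?_, fun hQ => ?_⟩⟩
  · have h2 := lefschetz_iff (H := H) (hF.proj e) hL i
    rwa [hF.dim] at h2
  · have h2 := hodge_iff (H := H) (hF.proj e) hL T (i := i) (by rw [hF.dim]; omega)
    rwa [hF.dim] at h2
  · have h1 := (hQ X L hL).2 i 0 (by omega) x hx hx0 (by rwa [zero_add, pow_one])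
    rwa [pow_zero, one_mul, hi.neg_one_pow, one_mul] at h1
  · have h2 := (all_hodge T hF {i | Even i} (fun n => ⟨2 * n, even_two_mul n, by omega⟩)).2
      (fun X L hL i hi hd x hx hx0 hxk => by
        rw [(show Even i from hi).neg_one_pow, one_mul]
        exact hQ X L hL i hi hd x hx hx0 hxk)
    exact fun X L hL => ⟨h3 X L (hF.deg hL) (hR X) (h2 X L hL), h2 X L hL⟩

end Pool.Agent.Results.MP_e2c9e7_nt.MiddleDimension
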